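import Pool.Agent.K1H22.SR.Stm

/-!
Project SR (helper22), piece COS: the deletions in the powers of a word as paths. The states are the
cosets of the free subgroup; one edge reads a whole period.
-/

set_option autoImplicit false

namespace Pool.Agent.K1H99.SR

open Pool.Agent.K1H22.SR

variable {G : Type} [Group G] {F : Subgroup G} {X : Type}

open Classical in
/-- the label of an element of the free subgroup -/
noncomputable def lab (e : F ≃* FreeGroup X) (g : G) : FreeGroup X :=
  if h : g ∈ F then e ⟨g, h⟩ else 1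

theorem lab_mul (e : F ≃* FreeGroup X) {g g' : G} (h : g ∈ F) (h' : g' ∈ F) :
    lab e (g * g') = lab e g * lab e g' := by
  unfold lab
  rw [dif_pos h, dif_pos h', dif_pos (F.mul_mem h h'), ← map_mul]
  rfl

theorem lab_one (e : F ≃* FreeGroup X) : lab e 1 = 1 := by
  unfold lab
  rw [dif_pos F.one_mem]
  exact map_one e

theorem eq_one_of_lab (e : F ≃* FreeGroup X) {g : G} (h : g ∈ F) (h1 : lab e g = 1) : g = 1 := by
  unfold lab at h1
  rw [dif_pos h] at h1
  have h2 : (⟨g, h⟩ : F) = 1 := by
    apply e.injective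
    rw [h1, map_one]
  exact congrArg Subtype.val h2

/-- the label of a path from `q` to `q'` that reads `g` -/
noncomputable def lam (q : G ⧸ F) (g : G) : G :=
  (Quotient.out q)⁻¹ * g * Quotient.out (g⁻¹ • q)

theorem lam_mem (q : G ⧸ F) (g : G) : lam q g ∈ F := by
  unfold lam
  rw [mul_assoc]
  apply QuotientGroup.eq.1
  have h1 : ((Quotient.out q : G) : G ⧸ F) = q := Quotient.out_eq q
  have h2 : ((g * Quotient.out (g⁻¹ • q) : G) : G ⧸ F) = q := by
    have h3 : ((Quotient.out (g⁻¹ • q) : G) : G ⧸ F) = g⁻¹ • q := Quotient.out_eq _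
    have h4 : ((g * Quotient.out (g⁻¹ • q) : G) : G ⧸ F) =
        g • ((Quotient.out (g⁻¹ • q) : G) : G ⧸ F) := rfl
    rw [h4, h3, smul_inv_smul]
  rw [h1, h2]

theorem lam_mul (q : G ⧸ F) (g g' : G) : lam q (g * g') = lam q g * lam (g⁻¹ • q) g' := by
  unfold lam
  have : (g * g')⁻¹ • q = g'⁻¹ • g⁻¹ • q := by rw [mul_inv_rev, mul_smul]
  rw [this]
  group

theorem lam_one (q : G ⧸ F) : lam q 1 = 1 := by
  unfold lam
  rw [inv_one, one_smul]
  group

variable {B : Type} (f : B → G) (ω : List B)

open Classical in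
/-- the edges -/
noncomputable def Ed [Fintype (G ⧸ F)] (e : F ≃* FreeGroup X) :
    Finset ((G ⧸ F) × FreeGroup X × (ℕ × ℕ) × (G ⧸ F)) :=
  (Finset.univ ×ˢ ω.sublists.toFinset).image fun z =>
    (z.1, lab e (lam z.1 (z.2.map f).prod), (1, ω.length - z.2.length),
      ((z.2.map f).prod)⁻¹ • z.1)

theorem forw [Fintype (G ⧸ F)] (e : F ≃* FreeGroup X) {q q' : G ⧸ F} {h : FreeGroup X}
    {v : ℕ × ℕ} (hp : GP (Ed f ω e) q q' h v) :
    ∃ u : List B, u.Sublist (List.replicate v.1 ω).flatten ∧ q' = ((u.map f).prod)⁻¹ • q ∧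
      h = lab e (lam q (u.map f).prod) ∧ u.length + v.2 = v.1 * ω.length := by
  classical
  induction hp with
  | @nil p =>
    refine ⟨[], List.nil_sublist _, ?_, ?_, ?_⟩
    · simp
    · rw [List.map_nil, List.prod_nil, lam_one, lab_one]
    · simp
  | @cons p p' q g h v w hE _ ih =>
    obtain ⟨u₂, hu₂, hq, hh, hl⟩ := ih
    unfold Ed at hE
    rw [Finset.mem_image] at hE
    obtain ⟨⟨p₀, u₁⟩, hz, he⟩ := hE
    rw [Finset.mem_product, List.mem_toFinset, List.mem_sublists] at hz
    obtain ⟨_, hu₁⟩ := hz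
    change u₁.Sublist ω at hu₁
    simp only [Prod.mk.injEq] at he
    obtain ⟨rfl, rfl, rfl, rfl⟩ := he
    refine ⟨u₁ ++ u₂, ?_, ?_, ?_, ?_⟩
    · have e1 : (List.replicate ((1, ω.length - u₁.length) + w).1 ω).flatten =
          ω ++ (List.replicate w.1 ω).flatten := by
        rw [Prod.fst_add, add_comm, List.replicate_succ, List.flatten_cons]
      rw [e1]
      exact hu₁.append hu₂
    · rw [hq, List.map_append, List.prod_append, mul_inv_rev, mul_smul]
    · rw [hh, List.map_append, List.prod_append, lam_mul, lab_mul e (lam_mem _ _) (lam_mem _ _)]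
    · have := hu₁.length_le
      rw [Prod.snd_add, Prod.fst_add, List.length_append]
      show u₁.length + u₂.length + (ω.length - u₁.length + w.2) = (1 + w.1) * ω.length
      rw [add_mul, one_mul, ← hl]
      omega

theorem back [Fintype (G ⧸ F)] (e : F ≃* FreeGroup X) (n : ℕ) : ∀ (q : G ⧸ F) (d : ℕ)
    (u : List B), u.Sublist (List.replicate n ω).flatten → u.length + d = n * ω.length →
    GP (Ed f ω e) q (((u.map f).prod)⁻¹ • q) (lab e (lam q (u.map f).prod)) (n, d) := by
  classical
  induction n with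
  | zero =>
    intro q d u hu hl
    have hu' : u = [] := by
      rw [List.replicate_zero, List.flatten_nil] at hu
      exact List.sublist_nil.1 hu
    subst hu'
    have hd : d = 0 := by simpa using hl
    subst hd
    have e1 : (([] : List B).map f).prod = 1 := rfl
    rw [e1, inv_one, one_smul, lam_one, lab_one]
    exact GP.nil
  | succ n ih =>
    intro q d u hu hl
    rw [List.replicate_succ, List.flatten_cons, List.sublist_append_iff] at hu
    obtain ⟨u₁, u₂, rfl, hu₁, hu₂⟩ := hu
    have h1 := hu₁.length_le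
    have h2 := hu₂.length_le
    have h3 : (List.replicate n ω).flatten.length = n * ω.length := by
      simp
    rw [h3] at h2
    rw [List.length_append, Nat.succ_mul] at hl
    have h4 := ih ((u₁.map f).prod⁻¹ • q) (n * ω.length - u₂.length) u₂ hu₂ (by omega)
    have hE : (q, lab e (lam q (u₁.map f).prod), (1, ω.length - u₁.length),
        ((u₁.map f).prod)⁻¹ • q) ∈ Ed f ω e := by
      unfold Ed
      rw [Finset.mem_image]
      refine ⟨(q, u₁), ?_, rfl⟩
      rw [Finset.mem_product, List.mem_toFinset, List.mem_sublists]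
      exact ⟨Finset.mem_univ _, hu₁⟩
    have h5 := GP.cons hE h4
    have e1 : ((1, ω.length - u₁.length) + (n, n * ω.length - u₂.length) : ℕ × ℕ) =
        (n + 1, d) := by
      rw [Prod.mk_add_mk, Prod.mk.injEq]
      omega
    rw [e1, ← lab_mul e (lam_mem _ _) (lam_mem _ _), ← lam_mul, ← mul_smul, ← mul_inv_rev] at h5
    rw [List.map_append, List.prod_append]
    exact h5

theorem t_COS : S_COS := by
  intro G B _ f ω _ hF
  obtain ⟨F, hfi, hfree⟩ := hF
  have : Finite (G ⧸ F) := Subgroup.finite_quotient_of_finiteIndex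
  have : Fintype (G ⧸ F) := Fintype.ofFinite _
  let e : F ≃* FreeGroup (IsFreeGroup.Generators F) := IsFreeGroup.toFreeGroup F
  refine ⟨G ⧸ F, IsFreeGroup.Generators F, Ed f ω e, ((1 : G) : G ⧸ F), fun n d => ?_⟩
  constructor
  · intro h
    obtain ⟨u, hu, hq, hh, hl⟩ := forw f ω e h
    refine ⟨u, hu, ?_, hl⟩
    have h1 := eq_one_of_lab e (lam_mem _ _) hh.symm
    unfold lam at h1
    rw [← hq] at h1
    have h2 : (Quotient.out ((1 : G) : G ⧸ F)) * ((Quotient.out ((1 : G) : G ⧸ F))⁻¹ *
        (u.map f).prod * Quotient.out ((1 : G) : G ⧸ F)) *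
        (Quotient.out ((1 : G) : G ⧸ F))⁻¹ = (u.map f).prod := by group
    rw [← h2, h1]
    group
  · rintro ⟨u, hu, hg, hl⟩
    have h1 := back f ω e n ((1 : G) : G ⧸ F) d u hu hl
    rw [hg, inv_one, one_smul, lam_one, lab_one] at h1
    exact h1

end Pool.Agent.K1H99.SR
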